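import Mathlib
import Pool.Agent.Y810.PLP.Final3

namespace Pool.Agent.Results.MP_5bba21_co.SmallConstant

/-- For every matroid on a finite ground set, the product of the number of rank-1 flats and the
number of rank-3 flats is at most 448 times the square of the number of rank-2 flats. -/
theorem result {α : Type*} [Finite α] (M : Matroid α) :
    {F : Set α | M.IsFlat F ∧ M.eRk F = 1}.ncard * {F : Set α | M.IsFlat F ∧ M.eRk F = 3}.ncard
      ≤ 448 * {F : Set α | M.IsFlat F ∧ M.eRk F = 2}.ncard ^ 2 :=
  Pool.Agent.Y810.PLP.flats_ncard3 M

end Pool.Agent.Results.MP_5bba21_co.SmallConstant
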